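import Mathlib

set_option autoImplicit false

namespace Pool.Agent.Results.MP_287fcc_lc.NonPrimePower

/-- The table of a Cayley colouring of `ZMod 95` with five colours. -/
def tab : List ℕ :=
  [0, 0, 3, 1, 0, 2, 0, 3, 2, 2, 4, 2, 2, 1, 1, 1, 3, 3, 0, 1, 0, 4, 4, 1, 1, 3, 2, 0, 3, 0,
4, 1, 0, 2, 4, 1, 4, 3, 3, 2, 2, 4, 0, 3, 0, 4, 3, 4, 4, 3, 4, 0, 3, 0, 4, 2, 2, 3, 3, 4,
1, 4, 2, 0, 1, 4, 0, 3, 0, 2, 3, 1, 1, 4, 4, 0, 1, 0, 3, 3, 1, 1, 1, 2, 2, 4, 2, 2, 3, 0,
2, 0, 1, 3, 0]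

/-- The colour of a difference. -/
def fc (a : ZMod 95) : Fin 5 := Fin.ofNat 5 (tab.getD a.val 0)

/-- The colouring of pairs. -/
def cc (x y : ZMod 95) : Fin 5 := fc (x - y)

lemma fc_neg : ∀ a : ZMod 95, fc (-a) = fc a := by decide +kernel

lemma fc_surj : ∀ i : Fin 5, ∃ a : ZMod 95, a ≠ 0 ∧ fc a = i := by decide +kernel

lemma fc_triangle : ∀ a b : ZMod 95, a ≠ 0 → b ≠ 0 → a + b ≠ 0 →
    ¬ (fc a = fc b ∧ fc b = fc (a + b)) := by decide +kernel

lemma fc_path : ∀ a : ZMod 95, a ≠ 0 → ∀ j k : Fin 5, ¬ (j = fc a ∧ k = fc a) →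
    ∃ h : ZMod 95, h ≠ 0 ∧ h ≠ a ∧ fc h = j ∧ fc (a - h) = k := by decide +kernel

lemma cc_symm (x y : ZMod 95) : cc x y = cc y x := by
  unfold cc
  rw [← fc_neg (x - y), neg_sub]

lemma not_isPrimePow : ¬ IsPrimePow 95 := by
  rw [isPrimePow_nat_iff]
  rintro ⟨p, k, hp, hk, h⟩
  have h5 : 5 ∣ p ^ k := by rw [h]; norm_num
  have h19 : 19 ∣ p ^ k := by rw [h]; norm_num
  have h5' := (Nat.prime_dvd_prime_iff_eq (by norm_num) hp).mp
    ((by norm_num : Nat.Prime 5).dvd_of_dvd_pow h5)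
  have h19' := (Nat.prime_dvd_prime_iff_eq (by norm_num) hp).mp
    ((by norm_num : Nat.Prime 19).dvd_of_dvd_pow h19)
  omega

/-- There are an integer `n > 4` and a representation of the colour algebra `E_n({2,3})`, that is, a
colouring of the 2-element subsets of a finite set `U` with `n - 1` colours, all of them used, with no
monochromatic triangle, such that for every pair `x ≠ y` of colour `i` and every ordered pair of
colours `(j, k)` other than `(i, i)` some `z` has `{x, z}` of colour `j` and `{z, y}` of colour `k`,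
for which the number of points of `U` is not a prime power. -/
theorem result :
    ∃ n : ℕ, 4 < n ∧ ∃ (U : Type) (_ : Fintype U) (c : U → U → Fin (n - 1)),
      (∀ x y, c x y = c y x) ∧
      (∀ i : Fin (n - 1), ∃ x y, x ≠ y ∧ c x y = i) ∧
      (∀ x y z, x ≠ y → y ≠ z → x ≠ z → ¬ (c x y = c y z ∧ c y z = c x z)) ∧
      (∀ x y, x ≠ y → ∀ j k : Fin (n - 1), ¬ (j = c x y ∧ k = c x y) →
          ∃ z, z ≠ x ∧ z ≠ y ∧ c x z = j ∧ c z y = k) ∧
      ¬ IsPrimePow (Fintype.card U) := by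
  refine ⟨6, by norm_num, ZMod 95, inferInstance, cc, cc_symm, ?_, ?_, ?_, ?_⟩
  · intro i
    obtain ⟨a, ha, hi⟩ := fc_surj i
    exact ⟨a, 0, ha, by unfold cc; rwa [sub_zero]⟩
  · intro x y z hxy hyz hxz h
    have := fc_triangle (x - y) (y - z) (sub_ne_zero.mpr hxy) (sub_ne_zero.mpr hyz)
      (by rw [sub_add_sub_cancel]; exact sub_ne_zero.mpr hxz)
    rw [sub_add_sub_cancel] at this
    exact this h
  · intro x y hxy j k hjk
    obtain ⟨h, h0, h1, h2, h3⟩ := fc_path (x - y) (sub_ne_zero.mpr hxy) j k hjk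
    refine ⟨x - h, ?_, ?_, ?_, ?_⟩
    · intro hx
      exact h0 (by simpa using hx)
    · intro hx
      apply h1
      rw [← hx]
      ring
    · unfold cc
      rw [sub_sub_cancel]
      exact h2
    · unfold cc
      rw [sub_right_comm]
      exact h3
  · rw [ZMod.card]
    exact not_isPrimePow

end Pool.Agent.Results.MP_287fcc_lc.NonPrimePower
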